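import Pool.Agent.W5h13.GP.GI
import Pool.Agent.W5h13.GP.Suff
import Pool.Agent.W5h13.GP.RES
import Pool.Agent.W5h13.GP.LL
import Pool.Agent.W5h13.GP.NEC

/-!
# MP_02c6ed_co: a characterisation of the greedy posets by an exchange property
-/

namespace Pool.Agent.Results.MP_02c6ed_co.ExchangeProperty

open Pool.Agent.W5h13.GP

/-- A finite poset is greedy if and only if the greedy chains of all reachable sets have the
exchange property. -/
theorem result : ∀ (α : Type) [PartialOrder α] [Finite α], Greedy α ↔ Exch α := by
  intro α _ _
  rw [greedy_iff_agr]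
  exact ⟨nec res α, suff (ll res) α⟩

end Pool.Agent.Results.MP_02c6ed_co.ExchangeProperty
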