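import Pool.Agent.W5h13.GP.F
import Pool.Agent.W5h13.GP.EX
import Pool.Agent.W5h13.GP.S1
import Pool.Agent.W5h13.GP.S2
import Pool.Agent.W5h13.GP.JL
import Pool.Agent.W5h13.GP.P
import Pool.Agent.W5h13.GP.L
import Pool.Agent.W5h13.GP.HA2
import Pool.Agent.W5h13.GP.HB
import Pool.Agent.W5h13.GP.HBD
import Pool.Agent.W5h13.GP.HD
import Pool.Agent.W5h13.GP.Iso
import Pool.Agent.W5h13.GP.SL

/-!
# MP_02c6ed_co: greedy posets and the resolution of `N`s

Definitions: `Pool/Agent/W5h13/GP/Defs.lean`, `Defs2.lean`.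
-/

namespace Pool.Agent.Results.MP_02c6ed_co.ResolvedNs

open Pool.Agent.W5h13.GP Set

/-- All complete greedy decompositions have the same length. -/
def Agree (α : Type) [PartialOrder α] : Prop :=
  ∀ m m', Full (univ : Set α) m → Full (univ : Set α) m' → m = m'

theorem full_pos {α : Type} [PartialOrder α] {Q : Set α} {m : ℕ} (h : Full Q m)
    (hQ : Q.Nonempty) : ∃ k, m = k + 1 := by
  cases h with
  | nil => exact absurd hQ (by simp)
  | cons Q C m _ _ _ => exact ⟨m, rfl⟩

theorem full_empty {α : Type} [PartialOrder α] {m : ℕ} (h : Full (∅ : Set α) m) : m = 0 := by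
  cases h with
  | nil => rfl
  | cons Q C m h _ _ => exact absurd h (by simp)

theorem le_linExt {α : Type} [PartialOrder α] (l : List α) :
    LinExt l ↔ Pool.Agent.W5h13.GP.LE univ l := by
  simp [LinExt, Pool.Agent.W5h13.GP.LE]

theorem greedy_iff (α : Type) [PartialOrder α] [Finite α] : Greedy α ↔ Agree α := by
  rcases isEmpty_or_nonempty α with he | hne
  · have hu : (univ : Set α) = ∅ := eq_empty_of_isEmpty univ
    constructor
    · intro _ m m' h h'
      rw [hu] at h h'
      rw [full_empty h, full_empty h']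
    · intro _ k hk
      have hc : IsChain (· ≤ ·) (univ : Set α) := by rw [hu]; exact Set.subsingleton_empty.isChain
      have hk0 : k = 0 := by
        cases hk with
        | stop _ _ => rfl
        | step Q C k h1 _ _ => exact absurd hc h1
      have hj : jn α = 0 := by
        refine Nat.sInf_eq_zero.mpr (Or.inl ⟨[], ⟨List.nodup_nil, fun x => (he.false x).elim,
          List.Pairwise.nil⟩, rfl⟩)
      rw [hk0, hj]
  · have hun : (univ : Set α).Nonempty := univ_nonempty
    constructor
    · intro hG m m' h h'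
      obtain ⟨k, rfl⟩ := full_pos h hun
      obtain ⟨k', rfl⟩ := full_pos h' hun
      rw [hG k ((f α univ k hun).mpr h), hG k' ((f α univ k' hun).mpr h')]
    · intro hA k hk
      have hF := (f α univ k hun).mp hk
      obtain ⟨l, hl, hlk⟩ := s2 α univ k hF
      have hl' : LinExt l := (le_linExt l).mpr hl
      have hmem : jumps l ∈ {k | ∃ l : List α, LinExt l ∧ jumps l = k} := ⟨l, hl', rfl⟩
      have h1 : jn α ≤ k := (Nat.sInf_le hmem).trans (by rw [jl_eq α l hl']; exact hlk)
      obtain ⟨l₂, hl₂, hj₂⟩ : ∃ l : List α, LinExt l ∧ jumps l = jn α :=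
        Nat.sInf_mem (s := {k | ∃ l : List α, LinExt l ∧ jumps l = k}) ⟨_, hmem⟩
      obtain ⟨m, hm, hFm⟩ := s1 α univ l₂ hun ((le_linExt l₂).mp hl₂)
      have h2 := hA _ _ hFm hF
      rw [← jl_eq α l₂ hl₂, hj₂] at hm
      omega

/-- (1) for every finite poset, resolution of the cover-preserving `N`s implies greedy. -/
theorem greedy_of_SEc (α : Type) [PartialOrder α] [Finite α] (h : SEc α) : Greedy α := by
  rw [greedy_iff]
  obtain ⟨ρ, hρ⟩ := hbd α h
  intro m m' h1 h2
  have hD : Dn ((univ : Set α)ᶜ) := by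
    rw [compl_univ]; exact fun x hx => absurd hx (notMem_empty x)
  have e1 := hd α ρ hρ univ m hD h1
  have e2 := hd α ρ hρ univ m' hD h2
  have : (m : ℤ) = m' := e1.trans e2.symm
  exact_mod_cast this

theorem SEc_iff_SE {α : Type} [PartialOrder α] (hH : H2 α) : SEc α ↔ SE α := by
  have hc : ∀ {x b : α}, x < b → x ⋖ b := fun {x b} h => ⟨h, fun z h1 h2 => hH x z b h1 h2⟩
  constructor
  · intro h b₁ b₂ x y h1 h2 h3 h4
    exact h b₁ b₂ x y (hc h1) (hc h2) (hc h3) h4
  · intro h b₁ b₂ x y h1 h2 h3 h4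
    exact h b₁ b₂ x y h1.lt h2.lt h3.lt h4

/-- (2) exact for posets without three-element chains. -/
theorem height_two (α : Type) [PartialOrder α] [Finite α] (hH : H2 α) : Greedy α ↔ SEc α := by
  refine ⟨fun h => ?_, greedy_of_SEc α⟩
  rw [SEc_iff_SE hH]
  exact (hb α).mp (ha2 ex α hH ((greedy_iff α).mp h))

theorem parallel (α β : Type) [PartialOrder α] [PartialOrder β] [Finite α] [Finite β] :
    Agree (α ⊕ β) ↔ Agree α ∧ Agree β := by
  constructor
  · intro h
    constructor
    · intro m m' h1 h2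
      obtain ⟨n, hn⟩ := ex β univ
      have := h _ _ ((par α β _).mpr ⟨m, n, h1, hn, rfl⟩) ((par α β _).mpr ⟨m', n, h2, hn, rfl⟩)
      omega
    · intro m m' h1 h2
      obtain ⟨n, hn⟩ := ex α univ
      have := h _ _ ((par α β _).mpr ⟨n, m, hn, h1, rfl⟩) ((par α β _).mpr ⟨n, m', hn, h2, rfl⟩)
      omega
  · rintro ⟨ha, hb⟩ m m' h1 h2
    obtain ⟨a, b, ha1, hb1, rfl⟩ := (par α β _).mp h1
    obtain ⟨a', b', ha2, hb2, rfl⟩ := (par α β _).mp h2
    rw [ha a a' ha1 ha2, hb b b' hb1 hb2]

theorem series (α β : Type) [PartialOrder α] [PartialOrder β] [Finite α] [Finite β]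
    [Nonempty α] [Nonempty β] : Agree (α ⊕ₗ β) ↔ Agree α ∧ Agree β := by
  constructor
  · intro h
    constructor
    · intro m m' h1 h2
      obtain ⟨n, hn⟩ := ex β univ
      obtain ⟨n', rfl⟩ := full_pos hn univ_nonempty
      have := h (m + n') (m' + n') ((ser α β _).mpr ⟨m, n' + 1, h1, hn, by omega⟩)
        ((ser α β _).mpr ⟨m', n' + 1, h2, hn, by omega⟩)
      omega
    · intro m m' h1 h2
      obtain ⟨n, hn⟩ := ex α univ
      obtain ⟨n', rfl⟩ := full_pos hn univ_nonempty
      have := h (n' + m) (n' + m') ((ser α β _).mpr ⟨n' + 1, m, hn, h1, by omega⟩)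
        ((ser α β _).mpr ⟨n' + 1, m', hn, h2, by omega⟩)
      omega
  · rintro ⟨ha, hb⟩ m m' h1 h2
    obtain ⟨a, b, ha1, hb1, e1⟩ := (ser α β _).mp h1
    obtain ⟨a', b', ha2, hb2, e2⟩ := (ser α β _).mp h2
    rw [ha a a' ha1 ha2, hb b b' hb1 hb2] at e1
    omega

/-- The smallest class of finite posets, closed under isomorphism, which contains the finite
posets without chains of three elements and is closed under disjoint unions and ordinal sums. -/
inductive Cls : (α : Type) → PartialOrder α → Prop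
  | base (α : Type) (i : PartialOrder α) : Finite α → (∀ x y z : α, x < y → ¬ y < z) → Cls α i
  | par (α β : Type) (i : PartialOrder α) (j : PartialOrder β) : Cls α i → Cls β j →
      Cls (α ⊕ β) inferInstance
  | ser (α β : Type) (i : PartialOrder α) (j : PartialOrder β) : Nonempty α → Nonempty β →
      Cls α i → Cls β j → Cls (α ⊕ₗ β) inferInstance
  | iso (α β : Type) (i : PartialOrder α) (j : PartialOrder β) : Nonempty (α ≃o β) →
      Cls α i → Cls β j

theorem cls_iff {α : Type} {i : PartialOrder α} (h : Cls α i) :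
    Finite α ∧ (Agree α ↔ SEc α) := by
  induction h with
  | base α i hf hH =>
    refine ⟨hf, ?_⟩
    rw [← greedy_iff]
    exact height_two α hH
  | par α β i j _ _ iha ihb =>
    obtain ⟨fa, ha⟩ := iha
    obtain ⟨fb, hb⟩ := ihb
    refine ⟨inferInstance, ?_⟩
    rw [parallel, sec_sum, ha, hb]
  | ser α β i j ne1 ne2 _ _ iha ihb =>
    obtain ⟨fa, ha⟩ := iha
    obtain ⟨fb, hb⟩ := ihb
    refine ⟨Finite.of_equiv (α ⊕ β) toLex, ?_⟩
    rw [series, sec_lex, ha, hb]
  | iso α β i j he _ iha =>
    obtain ⟨fa, ha⟩ := iha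
    obtain ⟨e⟩ := he
    refine ⟨Finite.of_equiv α e.toEquiv, ?_, ?_⟩
    · intro hA
      refine sec_iso e (ha.mp fun m m' h1 h2 => hA m m' (full_iso e m h1) (full_iso e m' h2))
    · intro hS m m' h1 h2
      exact ha.mpr (sec_iso e.symm hS) m m' (full_iso e.symm m h1) (full_iso e.symm m' h2)

/-- Resolution of the cover-preserving `N`s implies that a finite poset is greedy, and it is
equivalent to it for all posets obtained by disjoint unions and ordinal sums from posets of height
at most two. -/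
theorem result :
    (∀ (α : Type) [PartialOrder α] [Finite α], SEc α → Greedy α) ∧
    (∀ (α : Type) [i : PartialOrder α], Cls α i → (Greedy α ↔ SEc α)) := by
  refine ⟨fun α _ _ h => greedy_of_SEc α h, fun α i h => ?_⟩
  obtain ⟨fa, ha⟩ := cls_iff h
  rw [greedy_iff, ha]

end Pool.Agent.Results.MP_02c6ed_co.ResolvedNs
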